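import Pool.Agent.H.MP_75fd85_lc.B

namespace Pool.Agent.Results.MP_75fd85_lc.Hard

open Pool.Agent.Lib.CX Pool.Agent.H.MP_75fd85_lc

theorem result : (NPHard fun a : Inst × ℕ => ∃ L, Sol a.1 L ∧ L.length ≤ a.2 + 1) ∧
    ∀ f : Inst → List ℕ, PT f → (∀ a, Sol a (f a) ∧ ∀ L, Sol a L → (f a).length ≤ L.length) →
      ∀ A : List Bool → Prop, InNP A → InP A := ⟨hard, noalg⟩

end Pool.Agent.Results.MP_75fd85_lc.Hard
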